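import Pool.Agent.R30B.Stmts

set_option autoImplicit false

/-!
# Row ZER of squad R30B
-/

namespace Pool.Agent.R30B.H86

open Pool.Agent.R30B

theorem zer (zca : ZcaStmt) (zcb : ZcbStmt) : ZerStmt := by
  intro r hr
  obtain ⟨S, hS⟩ := zcb r hr
  refine ⟨max S (40 * (r + 2)), fun s hs D hD hp h0 h1 h2 => ?_⟩
  by_cases h : ∃ c : ℕ, D (c * (s + r) + (s - 9 * (r + 2))) 1 = true
  · exact zca r s hr (le_trans (le_max_right _ _) hs) D hD hp h0 h
  · exfalso
    have hf : ∀ c : ℕ, D (c * (s + r) + (s - 9 * (r + 2))) 1 = false := fun c =>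
      Bool.eq_false_iff.2 fun h' => h ⟨c, h'⟩
    have hc0 := hf 0
    have hc1 := hf 1
    rw [zero_mul, zero_add] at hc0
    rw [one_mul] at hc1
    refine hS s (le_trans (le_max_left _ _) hs) D hD h0 h1 h2 (fun t ht => ?_) hc0 hc1
    rw [add_comm (s + r) t, hp]
    exact h0 t ht

end Pool.Agent.R30B.H86
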